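import Mathlib

set_option autoImplicit false
set_option maxRecDepth 100000

namespace Pool.Agent.Results.MP_9f71e8_nt.LargestNonRep

open Finset

/-- `n` is a sum of exactly `L` terms, the `j`-th being a positive power of the `j`-th prime. -/
def RepL (L n : ℕ) : Prop :=
  ∃ α : ℕ → ℕ, (∀ j < L, 1 ≤ α j) ∧ n = ∑ j ∈ Finset.range L, Nat.nth Nat.Prime j ^ α j

lemma RepL.succ {L n k : ℕ} (h : RepL L n) (hk : 1 ≤ k) :
    RepL (L + 1) (n + Nat.nth Nat.Prime L ^ k) := by
  obtain ⟨α, h1, h2⟩ := h
  refine ⟨fun j => if j < L then α j else k, ?_, ?_⟩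
  · intro j hj
    by_cases hjL : j < L
    · simpa [hjL] using h1 j hjL
    · simpa [hjL] using hk
  · rw [Finset.sum_range_succ, h2]
    congr 1
    · apply Finset.sum_congr rfl
      intro j hj
      simp [Finset.mem_range.mp hj]
    · simp

/-- One step of the bit-mask computation: shift `B` by `p, p^2, ..., p^K` and take the union. -/
def step (B p : ℕ) : ℕ → ℕ
  | 0 => 0
  | K + 1 => step B p K ||| (B <<< (p ^ (K + 1)))

lemma step_sound (B p K n : ℕ) (h : (step B p K).testBit n = true) :
    ∃ k, 1 ≤ k ∧ p ^ k ≤ n ∧ B.testBit (n - p ^ k) = true := by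
  induction K with
  | zero => simp [step] at h
  | succ K ih =>
    rw [step, Nat.testBit_lor, Bool.or_eq_true] at h
    rcases h with h | h
    · exact ih h
    · rw [Nat.testBit_shiftLeft, Bool.and_eq_true, decide_eq_true_eq] at h
      exact ⟨K + 1, by omega, h.1, h.2⟩

/-- The bit mask `B` only marks sums with exactly `L` terms. -/
def Sound (L B : ℕ) : Prop := ∀ n, B.testBit n = true → RepL L n

lemma Sound.step {L B p : ℕ} (h : Sound L B) (hp : Nat.nth Nat.Prime L = p) (K : ℕ) :
    Sound (L + 1) (step B p K) := by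
  intro n hn
  obtain ⟨k, hk1, hk2, hk3⟩ := step_sound _ _ _ _ hn
  have := (h _ hk3).succ hk1
  rw [hp, Nat.sub_add_cancel hk2] at this
  exact this

lemma sound_zero : Sound 0 1 := by
  intro n hn
  have : n = 0 := by
    by_contra hne
    rw [Nat.testBit_one_eq_true_iff_self_eq_zero] at hn
    exact hne hn
  subst this
  exact ⟨fun _ => 1, by simp, by simp⟩

lemma nth_prime_of_count {q j : ℕ} (hq : Nat.Prime q) (hc : Nat.count Nat.Prime q = j) :
    Nat.nth Nat.Prime j = q := by
  rw [← hc]; exact Nat.nth_count hq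

lemma nth0 : Nat.nth Nat.Prime 0 = 2 := nth_prime_of_count (by norm_num) (by decide)
lemma nth1 : Nat.nth Nat.Prime 1 = 3 := nth_prime_of_count (by norm_num) (by decide)
lemma nth2 : Nat.nth Nat.Prime 2 = 5 := nth_prime_of_count (by norm_num) (by decide)
lemma nth3 : Nat.nth Nat.Prime 3 = 7 := nth_prime_of_count (by norm_num) (by decide)
lemma nth4 : Nat.nth Nat.Prime 4 = 11 := nth_prime_of_count (by norm_num) (by decide)
lemma nth5 : Nat.nth Nat.Prime 5 = 13 := nth_prime_of_count (by norm_num) (by decide)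
lemma nth6 : Nat.nth Nat.Prime 6 = 17 := nth_prime_of_count (by norm_num) (by decide)
lemma nth7 : Nat.nth Nat.Prime 7 = 19 := nth_prime_of_count (by norm_num) (by decide)
lemma nth8 : Nat.nth Nat.Prime 8 = 23 := nth_prime_of_count (by norm_num) (by decide)
lemma nth9 : Nat.nth Nat.Prime 9 = 29 := nth_prime_of_count (by norm_num) (by decide)

def B1 : ℕ := step 1 2 14
def B2 : ℕ := step B1 3 9
def B3 : ℕ := step B2 5 6
def B4 : ℕ := step B3 7 5
def B5 : ℕ := step B4 11 4
def B6 : ℕ := step B5 13 3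
def B7 : ℕ := step B6 17 3
def B8 : ℕ := step B7 19 3
def B9 : ℕ := step B8 23 3

lemma sound1 : Sound 1 B1 := sound_zero.step nth0 14
lemma sound2 : Sound 2 B2 := sound1.step nth1 9
lemma sound3 : Sound 3 B3 := sound2.step nth2 6
lemma sound4 : Sound 4 B4 := sound3.step nth3 5
lemma sound5 : Sound 5 B5 := sound4.step nth4 4
lemma sound6 : Sound 6 B6 := sound5.step nth5 3
lemma sound7 : Sound 7 B7 := sound6.step nth6 3
lemma sound8 : Sound 8 B8 := sound7.step nth7 3
lemma sound9 : Sound 9 B9 := sound8.step nth8 3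

/-- check that the bits `a, a + 2, ..., a + 2 * (n - 1)` of `B` are all set -/
def checkEven (B a : ℕ) : ℕ → Bool
  | 0 => true
  | n + 1 => B.testBit (a + 2 * n) && checkEven B a n

lemma checkEven_sound (B a n : ℕ) (h : checkEven B a n = true) :
    ∀ i < n, B.testBit (a + 2 * i) = true := by
  induction n with
  | zero => intro i hi; omega
  | succ n ih =>
    rw [checkEven, Bool.and_eq_true] at h
    intro i hi
    rcases Nat.lt_succ_iff_lt_or_eq.mp hi with h1 | h1
    · exact ih h.2 i h1
    · subst h1; exact h.1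

lemma base9 : ∀ m, 216 ≤ m → m ≤ 40000 → m % 2 = 0 → RepL 9 m := by
  have hc : checkEven B9 216 19893 = true := by decide +kernel
  intro m h1 h2 h3
  apply sound9
  have := checkEven_sound _ _ _ hc ((m - 216) / 2) (by omega)
  have h4 : 216 + 2 * ((m - 216) / 2) = m := by omega
  rwa [h4] at this

/-- check all bits `a, ..., a + n - 1` -/
def checkAll (B a : ℕ) : ℕ → Bool
  | 0 => true
  | n + 1 => B.testBit (a + n) && checkAll B a n

lemma checkAll_sound (B a n : ℕ) (h : checkAll B a n = true) :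
    ∀ i < n, B.testBit (a + i) = true := by
  induction n with
  | zero => intro i hi; omega
  | succ n ih =>
    rw [checkAll, Bool.and_eq_true] at h
    intro i hi
    rcases Nat.lt_succ_iff_lt_or_eq.mp hi with h1 | h1
    · exact ih h.2 i h1
    · subst h1; exact h.1

lemma small : ∀ m, 34 ≤ m → m < 245 → ∃ L, 1 ≤ L ∧ RepL L m := by
  have hc : checkAll (B1 ||| B2 ||| B3 ||| B4 ||| B5 ||| B6 ||| B7 ||| B8 ||| B9) 34 211 = true := by
    decide +kernel
  intro m h1 h2
  have := checkAll_sound _ _ _ hc (m - 34) (by omega)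
  have h4 : 34 + (m - 34) = m := by omega
  rw [h4] at this
  simp only [Nat.testBit_lor, Bool.or_eq_true] at this
  rcases this with (((((((h | h) | h) | h) | h) | h) | h) | h) | h
  · exact ⟨1, by norm_num, sound1 _ h⟩
  · exact ⟨2, by norm_num, sound2 _ h⟩
  · exact ⟨3, by norm_num, sound3 _ h⟩
  · exact ⟨4, by norm_num, sound4 _ h⟩
  · exact ⟨5, by norm_num, sound5 _ h⟩
  · exact ⟨6, by norm_num, sound6 _ h⟩
  · exact ⟨7, by norm_num, sound7 _ h⟩
  · exact ⟨8, by norm_num, sound8 _ h⟩
  · exact ⟨9, by norm_num, sound9 _ h⟩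

/-! ### The prime sum `G y = ∑ q (q-1)` over primes `29 ≤ q ≤ y` -/

def G (y : ℕ) : ℕ := ∑ q ∈ (Finset.Icc 29 y).filter Nat.Prime, q * (q - 1)

lemma G_mono {x y : ℕ} (h : x ≤ y) : G x ≤ G y := by
  unfold G
  apply Finset.sum_le_sum_of_subset
  intro q hq
  simp only [Finset.mem_filter, Finset.mem_Icc] at hq ⊢
  exact ⟨⟨hq.1.1, hq.1.2.trans h⟩, hq.2⟩

/-- trial division by the primes up to 43 -/
def isP (q : ℕ) : Bool :=
  q % 2 != 0 && q % 3 != 0 && q % 5 != 0 && q % 7 != 0 && q % 11 != 0 && q % 13 != 0 &&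
  q % 17 != 0 && q % 19 != 0 && q % 23 != 0 && q % 29 != 0 && q % 31 != 0 && q % 37 != 0 &&
  q % 41 != 0 && q % 43 != 0

lemma isP_prime {q : ℕ} (h1 : 47 ≤ q) (h2 : q < 2209) (h : isP q = true) : Nat.Prime q := by
  by_contra hq
  have hpos : 0 < q := by omega
  have hm := Nat.minFac_sq_le_self hpos hq
  have hp : Nat.Prime (Nat.minFac q) := Nat.minFac_prime (by omega)
  have hlt : Nat.minFac q < 47 := by
    by_contra hge
    rw [not_lt] at hge
    have : 47 ^ 2 ≤ Nat.minFac q ^ 2 := Nat.pow_le_pow_left hge 2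
    omega
  have hd : q % Nat.minFac q = 0 := Nat.mod_eq_zero_of_dvd (Nat.minFac_dvd q)
  simp only [isP, Bool.and_eq_true, bne_iff_ne, ne_eq] at h
  generalize hmf : Nat.minFac q = m at *
  interval_cases m <;> first | (exfalso; revert hp; norm_num; done) | omega

/-- sum of `q (q-1)` over the `q` in `[a, a+n)` passing trial division -/
def S (a : ℕ) : ℕ → ℕ
  | 0 => 0
  | n + 1 => S a n + bif isP (a + n) then (a + n) * (a + n - 1) else 0

lemma S_le_G (n : ℕ) (hn : 47 + n ≤ 2209) : S 47 n ≤ G (46 + n) := by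
  induction n with
  | zero => simp [S]
  | succ n ih =>
    have ih' := ih (by omega)
    rw [S]
    cases hP : isP (47 + n) with
    | false =>
      simp only [cond_false, add_zero]
      exact ih'.trans (G_mono (by omega))
    | true =>
      simp only [cond_true]
      have hprime : Nat.Prime (47 + n) := isP_prime (by omega) (by omega) hP
      have hG : G (46 + (n + 1)) = G (46 + n) + (47 + n) * (47 + n - 1) := by
        unfold G
        have h1 : (Finset.Icc 29 (46 + (n + 1))).filter Nat.Prime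
            = insert (47 + n) ((Finset.Icc 29 (46 + n)).filter Nat.Prime) := by
          ext q
          simp only [Finset.mem_filter, Finset.mem_Icc, Finset.mem_insert]
          constructor
          · rintro ⟨⟨h1, h2⟩, h3⟩
            by_cases hq : q = 47 + n
            · left; exact hq
            · right; exact ⟨⟨h1, by omega⟩, h3⟩
          · rintro (h1 | ⟨⟨h1, h2⟩, h3⟩)
            · subst h1; exact ⟨⟨by omega, by omega⟩, hprime⟩
            · exact ⟨⟨h1, by omega⟩, h3⟩
        rw [h1, Finset.sum_insert, add_comm]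
        simp
      rw [hG]
      omega

lemma checkpoint (n g : ℕ) (hn : 47 + n ≤ 2209) (hg : Nat.ble g (S 47 n) = true) {y : ℕ}
    (hy : 46 + n ≤ y) : g ≤ G y :=
  (Nat.le_of_ble_eq_true hg).trans ((S_le_G n hn).trans (G_mono hy))

/-- the finite part of the bound -/
lemma G_small {y : ℕ} (h2 : y < 10885) : 4 * y ^ 2 ≤ G y + 39784 := by
  rcases Nat.lt_or_ge y 99 with h | h
  · have : y ^ 2 ≤ 98 ^ 2 := Nat.pow_le_pow_left (by omega) 2
    omega
  rcases Nat.lt_or_ge y 155 with h' | h'
  · have := checkpoint 53 56760 (by norm_num) (by decide +kernel) (y := y) (by omega)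
    have : y ^ 2 ≤ 154 ^ 2 := Nat.pow_le_pow_left (by omega) 2
    omega
  rcases Nat.lt_or_ge y 259 with h' | h'
  · have := checkpoint 109 228684 (by norm_num) (by decide +kernel) (y := y) (by omega)
    have : y ^ 2 ≤ 258 ^ 2 := Nat.pow_le_pow_left (by omega) 2
    omega
  rcases Nat.lt_or_ge y 521 with h' | h'
  · have := checkpoint 213 1047512 (by norm_num) (by decide +kernel) (y := y) (by omega)
    have : y ^ 2 ≤ 520 ^ 2 := Nat.pow_le_pow_left (by omega) 2
    omega
  rcases Nat.lt_or_ge y 1398 with h' | h'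
  · have := checkpoint 475 7787472 (by norm_num) (by decide +kernel) (y := y) (by omega)
    have : y ^ 2 ≤ 1397 ^ 2 := Nat.pow_le_pow_left (by omega) 2
    omega
  rcases Nat.lt_or_ge y 5571 with h' | h'
  · have := checkpoint 1352 124113868 (by norm_num) (by decide +kernel) (y := y) (by omega)
    have : y ^ 2 ≤ 5570 ^ 2 := Nat.pow_le_pow_left (by omega) 2
    omega
  · have := checkpoint 2162 473942396 (by norm_num) (by decide +kernel) (y := y) (by omega)
    have : y ^ 2 ≤ 10884 ^ 2 := Nat.pow_le_pow_left (by omega) 2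
    omega

/-! ### The analytic part of the bound, from Mathlib's Chebyshev estimates -/

lemma card_primes_large {n : ℕ} (hn : 10000 ≤ n) :
    37 ≤ (Nat.primesLE n \ Nat.primesLE (n / 3)).card := by
  by_contra hlt
  have hcard : (((Nat.primesLE n \ Nat.primesLE (n / 3)).card : ℕ) : ℝ) ≤ 36 := by
    have : (Nat.primesLE n \ Nat.primesLE (n / 3)).card ≤ 36 := by omega
    exact_mod_cast this
  have hsub : Nat.primesLE (n / 3) ⊆ Nat.primesLE n := by
    intro q hq
    rw [Nat.mem_primesLE] at hq ⊢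
    exact ⟨hq.1.trans (Nat.div_le_self n 3), hq.2⟩
  have hn1 : (10000 : ℝ) ≤ n := by exact_mod_cast hn
  have hlogn : 0 ≤ Real.log n := Real.log_nonneg (by linarith)
  have hθ : Chebyshev.theta n - Chebyshev.theta ((n / 3 : ℕ) : ℝ)
      ≤ (Nat.primesLE n \ Nat.primesLE (n / 3)).card * Real.log n := by
    rw [Chebyshev.theta_eq_sum_primesLE_log, Chebyshev.theta_eq_sum_primesLE_log,
      ← Finset.sum_sdiff hsub, add_sub_cancel_right, ← nsmul_eq_mul]
    apply Finset.sum_le_card_nsmul
    intro q hq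
    rw [Finset.mem_sdiff, Nat.mem_primesLE] at hq
    apply Real.log_le_log
    · exact_mod_cast hq.1.2.pos
    · exact_mod_cast hq.1.1
  have h1 := Chebyshev.theta_ge n
  have h2 : Chebyshev.theta ((n / 3 : ℕ) : ℝ) ≤ Real.log 4 * ((n / 3 : ℕ) : ℝ) :=
    Chebyshev.theta_le_log4_mul_x (by positivity)
  have h3 : ((n / 3 : ℕ) : ℝ) ≤ (n : ℝ) / 3 := Nat.cast_div_le
  have hlog4 : Real.log 4 = 2 * Real.log 2 := by
    rw [show (4 : ℝ) = 2 ^ 2 by norm_num, Real.log_pow]; norm_num
  have hl2a := Real.log_two_gt_d9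
  have hl2b := Real.log_two_lt_d9
  have h4 : Real.log 4 * ((n / 3 : ℕ) : ℝ) ≤ 2 * Real.log 2 * ((n : ℝ) / 3) := by
    rw [hlog4]
    apply mul_le_mul_of_nonneg_left h3 (by positivity)
  have h5 : Real.log (n + 1) ≤ Real.log n + 1 := by
    have : Real.log (n + 1) ≤ Real.log (2 * n) :=
      Real.log_le_log (by positivity) (by linarith)
    rw [Real.log_mul (by norm_num) (by positivity)] at this
    linarith
  set x := Real.sqrt n with hx
  have hxx : x * x = n := Real.mul_self_sqrt (by positivity)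
  have hx100 : 100 ≤ x := by
    rw [hx]
    apply Real.le_sqrt_of_sq_le
    norm_num; exact hn
  have hlogx : Real.log n = 2 * Real.log x := by
    rw [← hxx, Real.log_mul (by positivity) (by positivity)]; ring
  have h6 : Real.log x ≤ 7 * Real.log 2 + (x / 128 - 1) := by
    have h7 : Real.log (x / 128) ≤ x / 128 - 1 := Real.log_le_sub_one_of_pos (by positivity)
    rw [Real.log_div (by positivity) (by norm_num),
      show (128 : ℝ) = 2 ^ 7 by norm_num, Real.log_pow] at h7
    push_cast at h7
    norm_num at h7 ⊢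
    linarith
  have h8 : ((Nat.primesLE n \ Nat.primesLE (n / 3)).card : ℝ) * Real.log n ≤ 36 * Real.log n :=
    mul_le_mul_of_nonneg_right hcard hlogn
  have h9 : (n : ℝ) / 3 * Real.log 2 ≤ (37 + 2 * x) * Real.log n + 1 := by nlinarith
  have h10 : Real.log n ≤ 14 * 0.6931471808 + x / 64 - 2 := by
    rw [hlogx]; linarith
  have h11 : (37 + 2 * x) * Real.log n ≤ (37 + 2 * x) * (14 * 0.6931471808 + x / 64 - 2) :=
    mul_le_mul_of_nonneg_left h10 (by positivity)
  have h12 : (n : ℝ) / 3 * 0.6931471803 ≤ (n : ℝ) / 3 * Real.log 2 :=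
    mul_le_mul_of_nonneg_left hl2a.le (by positivity)
  rw [← hxx] at h9 h12
  nlinarith

lemma G_large {n : ℕ} (hn : 10000 ≤ n) : 4 * n ^ 2 ≤ G n := by
  have hcard := card_primes_large hn
  set D := Nat.primesLE n \ Nat.primesLE (n / 3) with hD
  have hmem : ∀ q ∈ D, n / 3 < q ∧ q ≤ n ∧ Nat.Prime q := by
    intro q hq
    rw [hD, Finset.mem_sdiff, Nat.mem_primesLE, Nat.mem_primesLE] at hq
    refine ⟨?_, hq.1.1, hq.1.2⟩
    by_contra h
    exact hq.2 ⟨not_lt.mp h, hq.1.2⟩
  have h1 : ∑ q ∈ D, q * (q - 1) ≤ G n := by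
    unfold G
    apply Finset.sum_le_sum_of_subset
    intro q hq
    obtain ⟨ha, hb, hc⟩ := hmem q hq
    simp only [Finset.mem_filter, Finset.mem_Icc]
    exact ⟨⟨by omega, hb⟩, hc⟩
  have h2 : D.card * ((n + 1) * (n - 2)) ≤ ∑ q ∈ D, 9 * (q * (q - 1)) := by
    rw [← smul_eq_mul]
    apply Finset.card_nsmul_le_sum
    intro q hq
    obtain ⟨ha, hb, hc⟩ := hmem q hq
    have h3 : n + 1 ≤ 3 * q := by omega
    have h4 : n - 2 ≤ 3 * (q - 1) := by omega
    calc (n + 1) * (n - 2) ≤ (3 * q) * (3 * (q - 1)) := Nat.mul_le_mul h3 h4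
      _ = 9 * (q * (q - 1)) := by ring
  rw [← Finset.mul_sum] at h2
  have h3 : 37 * ((n + 1) * (n - 2)) ≤ D.card * ((n + 1) * (n - 2)) :=
    Nat.mul_le_mul_right _ hcard
  obtain ⟨k, rfl⟩ : ∃ k, n = k + 2 := ⟨n - 2, by omega⟩
  have h4 : k + 2 - 2 = k := by omega
  rw [h4] at h2 h3
  nlinarith

lemma G_bound (y : ℕ) : 4 * y ^ 2 ≤ G y + 39784 := by
  rcases Nat.lt_or_ge y 10885 with h | h
  · exact G_small h
  · exact (G_large (by omega)).trans (Nat.le_add_right _ _)

/-! ### The interval-filling induction -/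

lemma nth_succ_le (L : ℕ) :
    Nat.nth Nat.Prime (L + 1) ≤ 2 * Nat.nth Nat.Prime L := by
  have hp : Nat.Prime (Nat.nth Nat.Prime L) := Nat.prime_nth_prime L
  obtain ⟨q, hq, h1, h2⟩ := Nat.exists_prime_lt_and_le_two_mul _ hp.ne_zero
  refine le_trans ?_ h2
  have hq' : Nat.nth Nat.Prime (Nat.count Nat.Prime q) = q := Nat.nth_count hq
  rw [← hq'] at h1 ⊢
  have hlt : L < Nat.count Nat.Prime q :=
    (Nat.nth_lt_nth Nat.infinite_setOfPred_prime).mp h1
  exact (Nat.nth_le_nth Nat.infinite_setOfPred_prime).mpr hlt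

lemma G_le_sum (L : ℕ) :
    G (Nat.nth Nat.Prime L) ≤
      ∑ j ∈ Finset.Ico 9 (L + 1), Nat.nth Nat.Prime j * (Nat.nth Nat.Prime j - 1) := by
  have hinj : Function.Injective (Nat.nth Nat.Prime) :=
    (Nat.nth_strictMono Nat.infinite_setOfPred_prime).injective
  rw [← Finset.sum_image (f := fun q => q * (q - 1)) (g := Nat.nth Nat.Prime)
    (fun a _ b _ hab => hinj hab)]
  unfold G
  apply Finset.sum_le_sum_of_subset
  intro q hq
  simp only [Finset.mem_filter, Finset.mem_Icc, Finset.mem_image, Finset.mem_Ico] at hq ⊢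
  obtain ⟨⟨h1, h2⟩, h3⟩ := hq
  have hq' : Nat.nth Nat.Prime (Nat.count Nat.Prime q) = q := Nat.nth_count h3
  refine ⟨Nat.count Nat.Prime q, ⟨?_, ?_⟩, hq'⟩
  · rw [← nth9, ← hq'] at h1
    exact (Nat.nth_le_nth Nat.infinite_setOfPred_prime).mp h1
  · rw [← hq'] at h2
    exact Nat.lt_succ_of_le ((Nat.nth_le_nth Nat.infinite_setOfPred_prime).mp h2)

lemma sum_sq_eq (L : ℕ) :
    ∑ j ∈ Finset.Ico 9 L, Nat.nth Nat.Prime j ^ 2 =
      ∑ j ∈ Finset.Ico 9 L, Nat.nth Nat.Prime j * (Nat.nth Nat.Prime j - 1)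
        + ∑ j ∈ Finset.Ico 9 L, Nat.nth Nat.Prime j := by
  rw [← Finset.sum_add_distrib]
  apply Finset.sum_congr rfl
  intro j _
  obtain ⟨k, hk⟩ : ∃ k, Nat.nth Nat.Prime j = k + 1 :=
    ⟨Nat.nth Nat.Prime j - 1, by have := (Nat.prime_nth_prime j).pos; omega⟩
  rw [hk, Nat.add_sub_cancel]
  ring

/-- the gap condition that lets the interval grow -/
lemma gap_condition (L : ℕ) (hL : 9 ≤ L) :
    (216 + ∑ j ∈ Finset.Ico 9 L, Nat.nth Nat.Prime j) + Nat.nth Nat.Prime L ^ 2 ≤
      (40000 + ∑ j ∈ Finset.Ico 9 L, Nat.nth Nat.Prime j ^ 2) + Nat.nth Nat.Prime L + 1 := by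
  rw [sum_sq_eq]
  have key : Nat.nth Nat.Prime L ^ 2 ≤
      ∑ j ∈ Finset.Ico 9 L, Nat.nth Nat.Prime j * (Nat.nth Nat.Prime j - 1) + 39784 := by
    rcases Nat.eq_or_lt_of_le hL with h | h
    · subst h
      rw [nth9]
      simp
    · obtain ⟨K, rfl⟩ : ∃ K, L = K + 1 := ⟨L - 1, by omega⟩
      have h1 := nth_succ_le K
      have h2 := G_bound (Nat.nth Nat.Prime K)
      have h3 := G_le_sum K
      calc Nat.nth Nat.Prime (K + 1) ^ 2 ≤ (2 * Nat.nth Nat.Prime K) ^ 2 :=
            Nat.pow_le_pow_left h1 2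
        _ = 4 * Nat.nth Nat.Prime K ^ 2 := by ring
        _ ≤ _ := by omega
  omega

lemma nth_odd (L : ℕ) (hL : 1 ≤ L) : Nat.nth Nat.Prime L % 2 = 1 := by
  rcases (Nat.prime_nth_prime L).eq_two_or_odd with h | h
  · exfalso
    have : Nat.nth Nat.Prime 0 < Nat.nth Nat.Prime L :=
      (Nat.nth_lt_nth Nat.infinite_setOfPred_prime).mpr hL
    rw [nth0, h] at this
    exact lt_irrefl _ this
  · exact h

lemma interval (L : ℕ) (hL : 9 ≤ L) : ∀ m,
    216 + ∑ j ∈ Finset.Ico 9 L, Nat.nth Nat.Prime j ≤ m →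
    m ≤ 40000 + ∑ j ∈ Finset.Ico 9 L, Nat.nth Nat.Prime j ^ 2 →
    m % 2 = (L + 1) % 2 → RepL L m := by
  induction L, hL using Nat.le_induction with
  | base =>
    intro m h1 h2 h3
    simp only [Finset.Ico_self, Finset.sum_empty, add_zero] at h1 h2
    exact base9 m h1 h2 (by omega)
  | succ L hL ih =>
    intro m h1 h2 h3
    rw [Finset.sum_Ico_succ_top hL] at h1 h2
    have hgap := gap_condition L hL
    have hodd := nth_odd L (by omega)
    have hodd2 : Nat.nth Nat.Prime L ^ 2 % 2 = 1 := by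
      rw [Nat.pow_mod, hodd]
    set p := Nat.nth Nat.Prime L with hp
    set A := ∑ j ∈ Finset.Ico 9 L, Nat.nth Nat.Prime j with hA
    set B := ∑ j ∈ Finset.Ico 9 L, Nat.nth Nat.Prime j ^ 2 with hB
    rcases Nat.lt_or_ge (40000 + B + p) m with h | h
    · have h4 : p ^ 2 ≤ m := by omega
      have h5 := (ih (m - p ^ 2) (by omega) (by omega) (by omega)).succ (k := 2) (by norm_num)
      rw [← hp, Nat.sub_add_cancel h4] at h5
      exact h5
    · have h4 : p ≤ m := by omega
      have h5 := (ih (m - p) (by omega) (by omega) (by omega)).succ (k := 1) (by norm_num)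
      rw [← hp, pow_one, Nat.sub_add_cancel h4] at h5
      exact h5

/-- every `m ≥ 245` is covered -/
lemma large (m : ℕ) (hm : 245 ≤ m) : ∃ L, 1 ≤ L ∧ RepL L m := by
  -- choose the largest `L ≥ 9` of the right parity with `lo L ≤ m`
  let lo : ℕ → ℕ := fun L => 216 + ∑ j ∈ Finset.Ico 9 L, Nat.nth Nat.Prime j
  have hlo : ∀ L, lo L = 216 + ∑ j ∈ Finset.Ico 9 L, Nat.nth Nat.Prime j := fun _ => rfl
  have hlo_succ : ∀ L, 9 ≤ L → lo (L + 1) = lo L + Nat.nth Nat.Prime L := by
    intro L hL
    rw [hlo, hlo, Finset.sum_Ico_succ_top hL, add_assoc]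
  -- claim: for all L ≥ 9, every m of parity L+1 with lo L ≤ m is representable; strong form by
  -- decreasing search
  have key : ∀ d L, 9 ≤ L → m % 2 = (L + 1) % 2 → lo L ≤ m → m < lo L + d →
      ∃ L, 1 ≤ L ∧ RepL L m := by
    intro d
    induction d using Nat.strong_induction_on with
    | _ d ih =>
      intro L hL hpar h1 h2
      rcases Nat.lt_or_ge (40000 + ∑ j ∈ Finset.Ico 9 L, Nat.nth Nat.Prime j ^ 2) m with h | h
      · -- move to L + 2
        have e1 := hlo_succ L hL
        have e2 := hlo_succ (L + 1) (by omega)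
        have hpos := (Nat.prime_nth_prime L).two_le
        have hpos' := (Nat.prime_nth_prime (L + 1)).two_le
        have hle := nth_succ_le L
        have hgap := gap_condition L hL
        rw [← hlo] at hgap
        have hbig : lo (L + 1 + 1) ≤ m := by
          rw [e2, e1]
          have h3 : 3 * Nat.nth Nat.Prime L ≤ Nat.nth Nat.Prime L ^ 2 := by
            rw [pow_two]
            apply Nat.mul_le_mul_right
            have : Nat.nth Nat.Prime 0 < Nat.nth Nat.Prime L :=
              (Nat.nth_lt_nth Nat.infinite_setOfPred_prime).mpr (by omega)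
            rw [nth0] at this
            omega
          have h29 : 29 ≤ Nat.nth Nat.Prime L := by
            rw [← nth9]
            exact (Nat.nth_le_nth Nat.infinite_setOfPred_prime).mpr hL
          have h4 : 29 * Nat.nth Nat.Prime L ≤ Nat.nth Nat.Prime L ^ 2 := by
            rw [pow_two]
            exact Nat.mul_le_mul_right _ h29
          omega
        refine ih (lo L + d - lo (L + 1 + 1)) (by omega) (L + 1 + 1) (by omega) (by omega) hbig
          (by omega)
      · exact ⟨L, by omega, interval L hL m h1 h hpar⟩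
  rcases Nat.mod_two_eq_zero_or_one m with h | h
  · refine key (m + 1) 9 le_rfl (by omega) ?_ ?_
    · rw [hlo]; simp; omega
    · omega
  · refine key (m + 1) 10 (by omega) (by omega) ?_ ?_
    · rw [hlo_succ 9 le_rfl, nth9, hlo]; simp; omega
    · omega

/-- `33` is not representable -/
lemma not_rep_33 (L : ℕ) (hL : 1 ≤ L) : ¬ RepL L 33 := by
  rintro ⟨α, hα, hsum⟩
  have hp : ∀ j, 1 ≤ Nat.nth Nat.Prime j := fun j => (Nat.prime_nth_prime j).pos
  have hL6 : L < 6 := by
    by_contra hge
    rw [not_lt] at hge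
    have h1 : ∑ j ∈ Finset.range 6, Nat.nth Nat.Prime j ≤
        ∑ j ∈ Finset.range L, Nat.nth Nat.Prime j ^ α j := by
      calc ∑ j ∈ Finset.range 6, Nat.nth Nat.Prime j
          ≤ ∑ j ∈ Finset.range 6, Nat.nth Nat.Prime j ^ α j := by
            apply Finset.sum_le_sum
            intro j hj
            have hj' : j < L := by
              have := Finset.mem_range.mp hj
              omega
            calc Nat.nth Nat.Prime j = Nat.nth Nat.Prime j ^ 1 := (pow_one _).symm
              _ ≤ Nat.nth Nat.Prime j ^ α j := Nat.pow_le_pow_right (hp j) (hα j hj')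
        _ ≤ _ := Finset.sum_le_sum_of_subset (Finset.range_subset_range.mpr hge)
    simp only [Finset.sum_range_succ, Finset.sum_range_zero, nth0, nth1, nth2, nth3, nth4,
      nth5] at h1
    rw [← hsum] at h1
    omega
  -- finite check on exponents
  have hb : ∀ j < L, Nat.nth Nat.Prime j ^ α j ≤ 33 := by
    intro j hj
    rw [hsum]
    exact Finset.single_le_sum (f := fun j => Nat.nth Nat.Prime j ^ α j)
      (fun _ _ => Nat.zero_le _) (Finset.mem_range.mpr hj)
  have hexp : ∀ j < L, α j ≤ 5 := by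
    intro j hj
    by_contra hge
    rw [not_le] at hge
    have h1 : 2 ^ 6 ≤ Nat.nth Nat.Prime j ^ α j :=
      (Nat.pow_le_pow_left (Nat.prime_nth_prime j).two_le 6).trans
        (Nat.pow_le_pow_right (hp j) hge)
    have := hb j hj
    omega
  interval_cases L
  · simp only [Finset.sum_range_succ, Finset.sum_range_zero, nth0] at hsum
    have e0 := hα 0 (by norm_num)
    have f0 := hexp 0 (by norm_num)
    generalize α 0 = a at *
    interval_cases a <;> omega
  · simp only [Finset.sum_range_succ, Finset.sum_range_zero, nth0, nth1] at hsum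
    have e0 := hα 0 (by norm_num)
    have f0 := hexp 0 (by norm_num)
    have e1 := hα 1 (by norm_num)
    have f1 := hexp 1 (by norm_num)
    generalize α 0 = a at *
    generalize α 1 = b at *
    interval_cases a <;> interval_cases b <;> omega
  · simp only [Finset.sum_range_succ, Finset.sum_range_zero, nth0, nth1, nth2] at hsum
    have e0 := hα 0 (by norm_num)
    have f0 := hexp 0 (by norm_num)
    have e1 := hα 1 (by norm_num)
    have f1 := hexp 1 (by norm_num)
    have e2 := hα 2 (by norm_num)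
    have f2 := hexp 2 (by norm_num)
    generalize α 0 = a at *
    generalize α 1 = b at *
    generalize α 2 = c at *
    interval_cases a <;> interval_cases b <;> interval_cases c <;> omega
  · simp only [Finset.sum_range_succ, Finset.sum_range_zero, nth0, nth1, nth2, nth3] at hsum
    have e0 := hα 0 (by norm_num)
    have f0 := hexp 0 (by norm_num)
    have e1 := hα 1 (by norm_num)
    have f1 := hexp 1 (by norm_num)
    have e2 := hα 2 (by norm_num)
    have f2 := hexp 2 (by norm_num)
    have e3 := hα 3 (by norm_num)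
    have f3 := hexp 3 (by norm_num)
    have g2 := hb 2 (by norm_num)
    have g3 := hb 3 (by norm_num)
    rw [nth2] at g2
    rw [nth3] at g3
    generalize α 0 = a at *
    generalize α 1 = b at *
    generalize α 2 = c at *
    generalize α 3 = d at *
    interval_cases d
    · interval_cases c
      · interval_cases a <;> interval_cases b <;> omega
      · interval_cases a <;> interval_cases b <;> omega
      all_goals (exfalso; norm_num at g2)
    all_goals (exfalso; norm_num at g3)
  · simp only [Finset.sum_range_succ, Finset.sum_range_zero, nth0, nth1, nth2, nth3, nth4] at hsum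
    have e0 := hα 0 (by norm_num)
    have f0 := hexp 0 (by norm_num)
    have e1 := hα 1 (by norm_num)
    have f1 := hexp 1 (by norm_num)
    have e2 := hα 2 (by norm_num)
    have f2 := hexp 2 (by norm_num)
    have e3 := hα 3 (by norm_num)
    have f3 := hexp 3 (by norm_num)
    have e4 := hα 4 (by norm_num)
    have f4 := hexp 4 (by norm_num)
    have g2 := hb 2 (by norm_num)
    have g3 := hb 3 (by norm_num)
    have g4 := hb 4 (by norm_num)
    rw [nth2] at g2
    rw [nth3] at g3
    rw [nth4] at g4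
    generalize α 0 = a at *
    generalize α 1 = b at *
    generalize α 2 = c at *
    generalize α 3 = d at *
    generalize α 4 = e at *
    interval_cases e
    · interval_cases d
      · interval_cases c
        · interval_cases a <;> interval_cases b <;> omega
        · interval_cases a <;> interval_cases b <;> omega
        all_goals (exfalso; norm_num at g2)
      all_goals (exfalso; norm_num at g3)
    all_goals (exfalso; norm_num at g4)

/-- **Full answer.** `33` is the largest positive integer that is not of the form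
`2^α₁ + 3^α₂ + ⋯ + p_L^α_L` with `L ≥ 1` and all `αⱼ ≥ 1`. -/
theorem result :
    IsGreatest {n : ℕ | 0 < n ∧ ¬ ∃ L : ℕ, 1 ≤ L ∧ ∃ α : ℕ → ℕ, (∀ j < L, 1 ≤ α j) ∧
      n = ∑ j ∈ Finset.range L, Nat.nth Nat.Prime j ^ α j} 33 := by
  constructor
  · refine ⟨by norm_num, ?_⟩
    rintro ⟨L, hL, h⟩
    exact not_rep_33 L hL h
  · rintro n ⟨_, hn⟩
    by_contra hlt
    rw [not_le] at hlt
    apply hn
    rcases Nat.lt_or_ge n 245 with h | h
    · exact small n (by omega) h
    · exact large n h

end Pool.Agent.Results.MP_9f71e8_nt.LargestNonRep
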